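import Pool.Agent.H92.BF.Orb

set_option autoImplicit false

/-!
# The Lang-Vojta question for complements of the curves `F(x, y) = 1`

Let `F = ∏ (a_i0 X + a_i1 Y)` be a product of `m ≥ 7` pairwise independent linear forms, `L` the line
at infinity and `C` the curve `F(X, Y) = Z ^ m` in the projective plane. For all rational numbers
`s, t ≥ 0` with `c = ⌈m/2⌉ - 3 - 3 s - 3 m t > 0` Q1 holds, without exceptional set, for the orbifold
pair `(P², (1 - s) L + (1 - t) C)`: a curve which meets, outside the places of `S`, the line `L` only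
with multiplicity at least `1 / s` and the curve `C` only with multiplicity at least `1 / t`, either
has degree at most `3 χ / c` (as a map to the plane), or its image is contained in a curve of degree
at most `B`, where `B` depends only on `F`.

For `s = t = 0` this is Q1 for the affine surface `F(x, y) ≠ 1` (`m ≥ 7`), for `s = 1`, `t = 0` it is
Q1 for the complement of `C` in the plane (`m ≥ 13`), and for `s = 0`, `t = 1 / μ` it contains Q1 for
the affine surface `F(x, y) = 1 + T ^ μ`.

Outline of the proof. Let `u = F(x) - 1`, `δ = u d/du`, `w = x₀ δ x₁ - x₁ δ x₀`. There are forms `α`,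
`γ` of degrees `d = ⌊m/2⌋ + 1` and `d - 2` such that the second order operator
`R = d α(x) (δ w - w) + 2 (m - 1) δ(α(x)) w - d γ(x) w ^ 2` vanishes at the zeros of `F(x)`. If `R` is
not zero then a comparison of its zeros and poles gives the inequality. If `R = 0` then the curve
satisfies a linear differential equation with algebraic solutions only, and `x` satisfies an
algebraic equation of bounded degree.
-/

namespace Pool.Agent.Results.MP_70ba79_ag.BinaryFormComplements

open MvPolynomial SC Pool.Agent.H27.LV Pool.Agent.H92.BF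

theorem result (k : Type) [Field k] [IsAlgClosed k] [CharZero k] (m : ℕ)
    (a : Fin m → Fin 2 → k) (hm : 7 ≤ m) (ha : Pw a) : ∃ B : ℕ,
    ∀ (K : Type) [Field K] [Algebra k K] [Algebra.EssFiniteType k K], Algebra.trdeg k K = 1 →
    ∀ (D : Derivation k K K), D ≠ 0 → ∀ (x : Fin 2 → K) (S : Finset (DV k K)) (s t c : ℚ),
    0 ≤ s → 0 ≤ t → c = ((m + 1) / 2 : ℕ) - 3 - 3 * s - 3 * m * t → 0 < c →
    -- multiplicities of the intersections with the line at infinity and with the curve `F = z ^ m`
    (∀ v, v ∉ S → 0 < poleOrder v x → 1 ≤ s * poleOrder v x) →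
    (∀ v, v ∉ S → 0 < meetC a x v → 1 ≤ t * meetC a x v) →
    (c * deg k x ≤ 3 * (canDeg D + S.card) ∨ InCurve k B x) ∧
    ∃ P : MvPolynomial (Fin 2) k, P ≠ 0 ∧ aeval x P = 0 ∧
      (P.totalDegree : ℚ) ≤ max (B : ℚ) (6 * (canDeg D + S.card) / c + 1) :=
  orb k m a hm ha

end Pool.Agent.Results.MP_70ba79_ag.BinaryFormComplements
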